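import Pool.Agent.H.MP_a0ba93_nt.A

set_option autoImplicit false

namespace Pool.Agent.Results.MP_a0ba93_nt.Gap

open Pool.Agent.H.MP_a0ba93_nt

theorem result (c : ℝ) (hc : (5 + √17) / 2 < c) : ∃ a : ℕ → ℕ, StrictMono a ∧ 0 < a 0 ∧
    (∀ P Q : Finset ℕ, (P : Set ℕ) ⊆ Set.range a → (Q : Set ℕ) ⊆ Set.range a →
      ∑ x ∈ P, x = ∑ x ∈ Q, x → P.card = Q.card) ∧
    ∃ n₀ : ℕ, ∀ n ≥ n₀, (a (n + 1) : ℝ) - a n ≤ (n : ℝ) ^ c := by
  obtain ⟨s, g, h, hg⟩ := par_ex hc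
  have c0 : 0 ≤ c := le_trans (by positivity) hc.le
  refine ⟨h.a, h.a_mono, Nat.add_pos_left one_pos _, fun P Q hP hQ e => ?_, _,
    fun n hn => h.gap c0 hg hn⟩
  rw [← Set.image_univ] at hP hQ
  obtain ⟨P, -, rfl⟩ := Finset.subset_set_image_iff.1 hP
  obtain ⟨Q, -, rfl⟩ := Finset.subset_set_image_iff.1 hQ
  have inj := h.a_mono.injective
  rw [Finset.sum_image inj.injOn, Finset.sum_image inj.injOn] at e
  rw [Finset.card_image_of_injective _ inj, Finset.card_image_of_injective _ inj]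
  exact le_antisymm (h.adm P Q e) (h.adm Q P e.symm)

end Pool.Agent.Results.MP_a0ba93_nt.Gap
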